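import Pool.Agent.Work.MP_dcf6a6_tv.Interface

set_option autoImplicit false

namespace Pool.TVar.helper74

open Pool.TVar Finset

lemma BASE.coprime_of_no_root (f g : Polynomial ℂ) (hf : ∀ t, f.IsRoot t → ¬ g.IsRoot t) :
    IsCoprime f g := by
  rw [Polynomial.isCoprime_iff_aeval_ne_zero_of_isAlgClosed ℂ ℂ]
  intro t
  by_cases h : f.IsRoot t
  · right
    have := hf t h
    rwa [Polynomial.IsRoot.def, ← Polynomial.coe_aeval_eq_eval] at this
  · left
    rwa [Polynomial.IsRoot.def, ← Polynomial.coe_aeval_eq_eval] at h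

lemma BASE.no_root_of_coprime {f g : Polynomial ℂ} (h : IsCoprime f g) (t : ℂ) (hf : f.IsRoot t) :
    ¬ g.IsRoot t := by
  intro hg
  obtain ⟨a, b, hab⟩ := h
  have h1 := congrArg (Polynomial.eval t) hab
  rw [Polynomial.eval_add, Polynomial.eval_mul, Polynomial.eval_mul, hf.eq_zero, hg.eq_zero,
    mul_zero, mul_zero, add_zero, Polynomial.eval_one] at h1
  exact zero_ne_one h1

theorem stmt_BASE (hZED : Stmt_ZED) (hQJ : Stmt_QJ) : Stmt_BASE := by
  intro J K I B _ _ _ _ _ _ D x y hx hy hx0 hy0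
  classical
  set P0 : ℕ := ∏ j, (∑ i with D.ja i = D.ja j, D.w i) with hP0
  have hpos : ∀ j, 0 < ∑ i with D.ja i = D.ja j, D.w i := by
    intro j
    refine lt_of_lt_of_le (D.w_pos j) ?_
    exact Finset.single_le_sum (f := fun i => D.w i) (fun i _ => Nat.zero_le _)
      (by rw [Finset.mem_filter]; exact ⟨Finset.mem_univ _, rfl⟩)
  have hP0pos : 0 < P0 := Finset.prod_pos (fun j _ => hpos j)
  have hN2 : 2 ≤ 2 * P0 := by omega
  have hNdvd : ∀ j, (∑ i with D.ja i = D.ja j, D.w i) ∣ 2 * P0 := fun j =>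
    Dvd.dvd.mul_left (Finset.dvd_prod_of_mem (fun j => ∑ i with D.ja i = D.ja j, D.w i)
      (Finset.mem_univ j)) 2
  obtain ⟨z, hz, hP, hPP, hPz, hzz⟩ := hZED D x y (2 * P0) hN2 hx hy hx0 hy0
  have hne : ∀ b, MvPolynomial.aeval z (D.P b) ≠ 0 := by
    intro b h
    have h1 := (hP b).2.2.2.1
    rw [h, Polynomial.leadingCoeff_zero] at h1
    exact (hP b).1 h1.symm
  have hcard : ∀ b, (MvPolynomial.aeval z (D.P b)).roots.toFinset.card = 2 * P0 * D.p b := by
    intro b
    have hnd : (MvPolynomial.aeval z (D.P b)).roots.Nodup :=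
      Polynomial.nodup_roots (PerfectField.separable_iff_squarefree.2 (hP b).2.2.2.2.2)
    rw [Multiset.toFinset_card_of_nodup hnd, ← (hP b).2.2.1]
    exact (IsAlgClosed.splits _).natDegree_eq_card_roots.symm
  have hfac : ∀ b, MvPolynomial.aeval z (D.P b) =
      Polynomial.C (MvPolynomial.eval (fun k => y (Sum.inr k)) (D.P b)) *
        ∏ α ∈ (MvPolynomial.aeval z (D.P b)).roots.toFinset, (Polynomial.X - Polynomial.C α) := by
    intro b
    have hnd : (MvPolynomial.aeval z (D.P b)).roots.Nodup :=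
      Polynomial.nodup_roots (PerfectField.separable_iff_squarefree.2 (hP b).2.2.2.2.2)
    have h1 := (IsAlgClosed.splits (MvPolynomial.aeval z (D.P b))).eq_prod_roots
    rw [(hP b).2.2.2.1] at h1
    have h2 : ∏ α ∈ (MvPolynomial.aeval z (D.P b)).roots.toFinset,
        (Polynomial.X - Polynomial.C α) =
        ((MvPolynomial.aeval z (D.P b)).roots.map (fun α => Polynomial.X - Polynomial.C α)).prod := by
      rw [Finset.prod_eq_multiset_prod, Multiset.toFinset_val, Multiset.dedup_eq_self.2 hnd]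
    rw [h2]
    exact h1
  have hdisj : ∀ b b', b ≠ b' → Disjoint (MvPolynomial.aeval z (D.P b)).roots.toFinset
      (MvPolynomial.aeval z (D.P b')).roots.toFinset := by
    intro b b' hb
    rw [Finset.disjoint_left]
    intro t ht ht'
    rw [Multiset.mem_toFinset, Polynomial.mem_roots (hne _)] at ht ht'
    exact BASE.no_root_of_coprime (hPP b b' hb) t ht ht'
  obtain ⟨Q, Q', s, μ, hμ, hQ, hQroot, hQQ, hQprod⟩ := hQJ D.ja D.ba D.w D.m D.p (2 * P0)
    (fun b => (MvPolynomial.aeval z (D.P b)).roots.toFinset) D.w_pos D.m_pos D.p_pos D.balanced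
    (by omega) hNdvd (fun b => D.ja_surj (D.ba b)) hdisj hcard
  refine ⟨2 * P0, z, Q, Q', s, μ, by omega, hμ, hz, hQ, ?_, hQQ, ?_, hzz⟩
  · intro a
    rw [Finset.prod_mul_distrib, hQprod a, ← map_prod, hy a, map_prod, ← Finset.prod_mul_distrib]
    refine Finset.prod_congr rfl ?_
    intro b _
    rw [hfac b]
    conv_rhs => rw [mul_pow, ← map_pow]
    rw [← hfac b]
  · intro j k
    refine BASE.coprime_of_no_root _ _ ?_
    intro t ht
    obtain ⟨b, _, hb⟩ := hQroot j t ht
    rw [Multiset.mem_toFinset, Polynomial.mem_roots (hne _)] at hb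
    exact BASE.no_root_of_coprime (hPz b k) t hb

end Pool.TVar.helper74
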