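import Pool.Agent.Work.MP_dcf6a6_tv.Interface

set_option autoImplicit false

namespace Pool.TVar.helper74

open Pool.TVar Finset

lemma cyc_claim {J I : Type} [DecidableEq J] [DecidableEq I] (ja : J → I) (T : Finset J) :
    ∀ l : J → ℂ, (∀ j, l j ≠ 0) → (∀ a, ∏ j ∈ T with ja j = a, l j = 1) →
    ∃ (σ : Equiv.Perm J) (c : J → ℂ), (∀ j, ja (σ j) = ja j) ∧ (∀ j, j ∉ T → σ j = j) ∧
      (∀ j, c j ≠ 0) ∧ ∀ j ∈ T, c (σ j) = l j * c j := by
  induction T using Finset.induction_on with
  | empty =>
    intro l _ _
    exact ⟨1, fun _ => 1, fun j => rfl, fun j _ => rfl, fun j => one_ne_zero, fun j hj => by simp at hj⟩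
  | insert a0 T ha0 ih =>
    intro l hl hprod
    by_cases hb : ∃ b ∈ T, ja b = ja a0
    · obtain ⟨b, hbT, hba⟩ := hb
      have hba0 : b ≠ a0 := fun h => ha0 (h ▸ hbT)
      have hl' : ∀ j, Function.update l b (l b * l a0) j ≠ 0 := by
        intro j
        by_cases hj : j = b
        · subst hj
          rw [Function.update_self]
          exact mul_ne_zero (hl _) (hl _)
        · rw [Function.update_of_ne hj]
          exact hl j
      have hprod' : ∀ a, ∏ j ∈ T with ja j = a, Function.update l b (l b * l a0) j = 1 := by
        intro a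
        by_cases ha : a = ja a0
        · have h1 := hprod a
          rw [Finset.filter_insert, if_pos ha.symm, Finset.prod_insert (by simp [ha0])] at h1
          have hbm : b ∈ T.filter (fun j => ja j = a) := by
            rw [Finset.mem_filter]
            exact ⟨hbT, hba.trans ha.symm⟩
          rw [← Finset.mul_prod_erase _ _ hbm, Function.update_self]
          rw [← Finset.mul_prod_erase _ _ hbm] at h1
          have h2 : ∏ j ∈ (T.filter (fun j => ja j = a)).erase b,
              Function.update l b (l b * l a0) j = ∏ j ∈ (T.filter (fun j => ja j = a)).erase b, l j := by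
            refine Finset.prod_congr rfl ?_
            intro j hj
            rw [Function.update_of_ne (Finset.ne_of_mem_erase hj)]
          rw [h2, ← h1]
          ring
        · have h1 := hprod a
          rw [Finset.filter_insert, if_neg (fun h => ha h.symm)] at h1
          rw [← h1]
          refine Finset.prod_congr rfl ?_
          intro j hj
          have hjb : j ≠ b := by
            rintro rfl
            rw [Finset.mem_filter] at hj
            exact ha (hj.2.symm.trans hba)
          rw [Function.update_of_ne hjb]
      obtain ⟨σ, c, h1, h2, h3, h4⟩ := ih _ hl' hprod'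
      have hσa0 : σ a0 = a0 := h2 a0 ha0
      have hne : ∀ j, j ≠ a0 → σ j ≠ a0 := by
        intro j hj h
        exact hj (σ.injective (h.trans hσa0.symm))
      refine ⟨σ * Equiv.swap a0 b, Function.update c a0 (l b * c b), ?_, ?_, ?_, ?_⟩
      · intro j
        rw [Equiv.Perm.mul_apply, h1]
        by_cases hj : j = a0
        · subst hj
          rw [Equiv.swap_apply_left, hba]
        · by_cases hj' : j = b
          · subst hj'
            rw [Equiv.swap_apply_right, hba]
          · rw [Equiv.swap_apply_of_ne_of_ne hj hj']
      · intro j hj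
        rw [Finset.mem_insert, not_or] at hj
        have hjb : j ≠ b := fun h => hj.2 (h ▸ hbT)
        rw [Equiv.Perm.mul_apply, Equiv.swap_apply_of_ne_of_ne hj.1 hjb]
        exact h2 j hj.2
      · intro j
        by_cases hj : j = a0
        · subst hj
          rw [Function.update_self]
          exact mul_ne_zero (hl _) (h3 _)
        · rw [Function.update_of_ne hj]
          exact h3 j
      · intro j hj
        rw [Equiv.Perm.mul_apply]
        by_cases hja : j = a0
        · subst hja
          rw [Equiv.swap_apply_left, Function.update_of_ne (hne b hba0), Function.update_self,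
            h4 b hbT, Function.update_self]
          ring
        · by_cases hjb : j = b
          · subst hjb
            rw [Equiv.swap_apply_right, hσa0, Function.update_self, Function.update_of_ne hja]
          · rw [Equiv.swap_apply_of_ne_of_ne hja hjb, Function.update_of_ne (hne j hja),
              Function.update_of_ne hja]
            have hjT : j ∈ T := by
              rw [Finset.mem_insert] at hj
              exact hj.resolve_left hja
            rw [h4 j hjT, Function.update_of_ne hjb]
    · push Not at hb
      have hprod' : ∀ a, ∏ j ∈ T with ja j = a, l j = 1 := by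
        intro a
        by_cases ha : a = ja a0
        · have h0 : T.filter (fun j => ja j = a) = ∅ := by
            rw [Finset.filter_eq_empty_iff]
            intro j hj h
            exact hb j hj (h.trans ha)
          rw [h0, Finset.prod_empty]
        · have h1 := hprod a
          rw [Finset.filter_insert, if_neg (fun h => ha h.symm)] at h1
          exact h1
      obtain ⟨σ, c, h1, h2, h3, h4⟩ := ih _ hl hprod'
      refine ⟨σ, c, h1, fun j hj => h2 j (fun h => hj (Finset.mem_insert_of_mem h)), h3, ?_⟩
      intro j hj
      rw [Finset.mem_insert] at hj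
      rcases hj with rfl | hj
      · have h5 := hprod (ja j)
        rw [Finset.filter_insert, if_pos rfl, Finset.prod_insert (by simp [ha0])] at h5
        have h0 : T.filter (fun i => ja i = ja j) = ∅ := by
          rw [Finset.filter_eq_empty_iff]
          intro i hi h
          exact hb i hi h
        rw [h0, Finset.prod_empty, mul_one] at h5
        rw [h2 j ha0, h5, one_mul]
      · exact h4 j hj

theorem stmt_CYC : Stmt_CYC := by
  intro J I _ _ _ ja κ μ hκ hprod hμ
  have h1 : ∀ j, ∃ l : ℂ, l ^ μ (ja j) = κ j := fun j => IsAlgClosed.exists_pow_nat_eq _ (hμ _)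
  choose l hl using h1
  have hl0 : ∀ j, l j ≠ 0 := by
    intro j h
    have := hl j
    rw [h, zero_pow (hμ _).ne'] at this
    exact hκ j this.symm
  classical
  let ζ : I → ℂ := fun a => ∏ j with ja j = a, l j
  have hζ : ∀ a, ζ a ^ μ a = 1 := by
    intro a
    rw [← hprod a]
    show (∏ j with ja j = a, l j) ^ μ a = _
    rw [← Finset.prod_pow]
    refine Finset.prod_congr rfl ?_
    intro j hj
    rw [Finset.mem_filter] at hj
    rw [← hj.2]
    exact hl j
  have hζ0 : ∀ a, ζ a ≠ 0 := fun a => Finset.prod_ne_zero_iff.2 (fun j _ => hl0 j)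
  let r : J → J := fun j => (⟨j, rfl⟩ : ∃ i, ja i = ja j).choose
  have hr : ∀ j, ja (r j) = ja j := fun j => (⟨j, rfl⟩ : ∃ i, ja i = ja j).choose_spec
  have hrr : ∀ i j, ja i = ja j → r i = r j := by
    intro i j h
    show (⟨i, rfl⟩ : ∃ k, ja k = ja i).choose = (⟨j, rfl⟩ : ∃ k, ja k = ja j).choose
    congr 1
    rw [h]
  let l' : J → ℂ := fun j => l j * (if j = r j then (ζ (ja j))⁻¹ else 1)
  have hl'0 : ∀ j, l' j ≠ 0 := by
    intro j
    refine mul_ne_zero (hl0 j) ?_
    split_ifs
    · exact inv_ne_zero (hζ0 _)
    · exact one_ne_zero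
  have hl' : ∀ j, l' j ^ μ (ja j) = κ j := by
    intro j
    show (l j * _) ^ μ (ja j) = κ j
    rw [mul_pow, hl]
    split_ifs
    · rw [inv_pow, hζ, inv_one, mul_one]
    · rw [one_pow, mul_one]
  have hp : ∀ a, ∏ j ∈ Finset.univ with ja j = a, l' j = 1 := by
    intro a
    by_cases ha : ∃ j, ja j = a
    · obtain ⟨j, rfl⟩ := ha
      show ∏ i ∈ Finset.univ with ja i = ja j, l i * (if i = r i then (ζ (ja i))⁻¹ else 1) = 1
      rw [Finset.prod_mul_distrib]
      have h2 : ∏ i ∈ Finset.univ with ja i = ja j, (if i = r i then (ζ (ja i))⁻¹ else 1) =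
          (ζ (ja j))⁻¹ := by
        have h3 : ∏ i ∈ Finset.univ with ja i = ja j, (if i = r i then (ζ (ja i))⁻¹ else 1) =
            ∏ i ∈ Finset.univ with ja i = ja j, (if i = r j then (ζ (ja j))⁻¹ else 1) := by
          refine Finset.prod_congr rfl ?_
          intro i hi
          rw [Finset.mem_filter] at hi
          rw [hrr i j hi.2, hi.2]
        rw [h3, Finset.prod_ite_eq']
        rw [if_pos]
        rw [Finset.mem_filter]
        exact ⟨Finset.mem_univ _, hr j⟩
      rw [h2]
      exact mul_inv_cancel₀ (hζ0 _)
    · have h0 : Finset.univ.filter (fun j => ja j = a) = ∅ := by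
        rw [Finset.filter_eq_empty_iff]
        intro j _ h
        exact ha ⟨j, h⟩
      rw [h0, Finset.prod_empty]
  obtain ⟨σ, c, h2, _, h4, h5⟩ := cyc_claim ja Finset.univ l' hl'0 hp
  refine ⟨σ, c, h2, h4, fun j => ?_⟩
  rw [h5 j (Finset.mem_univ _), mul_div_cancel_right₀ _ (h4 j)]
  exact hl' j

end Pool.TVar.helper74
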